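import Pool.Agent.MP_410f3c_al.G.Gen

/-!
# MP_410f3c_al: the Factorial Conjecture for polynomials with a generic leading form
-/

set_option autoImplicit false

open MvPolynomial

/-- Let `S` be a nonempty finite set of exponents of degree `d ≥ 1` in `n` variables. There are a
nonzero polynomial `D` with rational coefficients in variables indexed by `S` and a number `M` such
that, for all complex numbers `c_a` (`a ∈ S`) with `D(c) ≠ 0` and for all polynomials `g` of degree
less than `d`, one of the numbers `L (f ^ m)`, `1 ≤ m ≤ M`, where `f = ∑ a ∈ S, c_a U^a + g`, is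
nonzero. -/
theorem Pool.Agent.Results.MP_410f3c_al.GenericLeadingForm.result :
    ∀ n : ℕ, ∀ L : MvPolynomial (Fin n) ℂ → ℂ,
      (∀ p : MvPolynomial (Fin n) ℂ,
        L p = ∑ s ∈ p.support, MvPolynomial.coeff s p * ∏ i : Fin n, ((s i).factorial : ℂ)) →
      ∀ d : ℕ, 0 < d → ∀ S : Finset (Fin n →₀ ℕ), S.Nonempty → (∀ a ∈ S, ∑ i, a i = d) →
        ∃ (D : MvPolynomial S ℚ) (M : ℕ), D ≠ 0 ∧
          ∀ c : S → ℂ, MvPolynomial.aeval c D ≠ 0 →
            ∀ g : MvPolynomial (Fin n) ℂ, g.totalDegree < d →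
              ∃ m : ℕ, 1 ≤ m ∧ m ≤ M ∧
                L ((∑ a : S, MvPolynomial.monomial a.1 (c a) + g) ^ m) ≠ 0 := by
  intro n L hL d hd S hS hSd
  obtain ⟨D, M, hD, h⟩ := Pool.Agent.MP_410f3c_al.G.generic S d hSd hS hd
  refine ⟨D, M, hD, ?_⟩
  intro c hc g hg
  obtain ⟨m, h1, h2, h3⟩ := h c hc g hg
  refine ⟨m, h1, h2, ?_⟩
  rw [hL]
  exact h3
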