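import Pool.Agent.MP_410f3c_al.Q.Asm

/-!
# MP_410f3c_al: the Factorial Conjecture for polynomials with a nondegenerate lowest form
-/

set_option autoImplicit false

open MvPolynomial

/-- Let `s ≥ 1` and `t ≥ 0`, and let `L` be the factorial functional on the polynomial ring in the
variables `U_1, …, U_s, V_1, …, V_t` over the complex numbers. Let `H_1, …, H_k` be forms in
`U_1, …, U_s` of positive degrees `d_1, …, d_k` whose product `R` is nondegenerate: for every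
`z ≠ 0` in `ℂ^s` some `z_i ∂R/∂U_i (z)` is nonzero. Let `a_j ≥ 1` and `e = ∑ a_j d_j`, and let `g`
be a polynomial all of whose monomials have degree at least `e` in the `U_i` and total degree
greater than `e`. Then, for every monomial `U^μ V^ν` and `f = U^μ V^ν (∏ H_j ^ a_j + g)`, the
number `L (f ^ m)` is nonzero for infinitely many `m`. -/
theorem Pool.Agent.Results.MP_410f3c_al.NondegenerateLowestForm.result :
    ∀ s t : ℕ, 1 ≤ s → ∀ L : MvPolynomial (Fin s ⊕ Fin t) ℂ → ℂ,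
      (∀ p : MvPolynomial (Fin s ⊕ Fin t) ℂ,
        L p = ∑ x ∈ p.support, MvPolynomial.coeff x p *
          ∏ i : Fin s ⊕ Fin t, ((x i).factorial : ℂ)) →
      ∀ (k : ℕ) (H : Fin k → MvPolynomial (Fin s) ℂ) (a d : Fin k → ℕ),
        (∀ j, (H j).IsHomogeneous (d j)) → (∀ j, 1 ≤ d j) → (∀ j, 1 ≤ a j) →
        (∀ z : Fin s → ℂ, z ≠ 0 →
          ∃ i, z i * MvPolynomial.eval z (MvPolynomial.pderiv i (∏ j, H j)) ≠ 0) →
        ∀ g : MvPolynomial (Fin s ⊕ Fin t) ℂ,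
          (∀ x ∈ g.support, ∑ j, a j * d j ≤ ∑ i : Fin s, x (Sum.inl i) ∧
            ∑ j, a j * d j < ∑ i, x i) →
          ∀ μ : Fin s ⊕ Fin t →₀ ℕ, ∀ M : ℕ, ∃ m : ℕ, M ≤ m ∧
            L ((MvPolynomial.monomial μ 1 *
              (MvPolynomial.rename Sum.inl (∏ j, H j ^ a j) + g)) ^ m) ≠ 0 := by
  intro s t hs L hL k H a d hH hd ha hnd g hg μ M
  haveI : Nonempty (Fin s) := ⟨⟨0, hs⟩⟩
  obtain ⟨D, hDF, hDe⟩ := Pool.Agent.MP_410f3c_al.Q.exists_nd H a d hH hd ha hnd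
  have hg' : ∀ x, coeff x g ≠ 0 →
      D.e + 1 ≤ ∑ i, x i ∧ D.e ≤ ∑ i : Fin s, x (Sum.inl i) := by
    intro x hx
    have h1 := hg x (mem_support_iff.mpr hx)
    rw [hDe]
    exact ⟨h1.2, h1.1⟩
  obtain ⟨m, hm, h⟩ := Pool.Agent.MP_410f3c_al.Q.main D μ g hg' M
  refine ⟨m, hm, ?_⟩
  rw [hL]
  rw [Pool.Agent.MP_410f3c_al.Q.LL_apply, hDF] at h
  intro h0
  apply h
  rw [← h0]
  refine Finset.sum_congr rfl fun x _ => ?_
  rw [Nat.cast_prod]
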