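import Pool.Agent.FCQ.Exp

/-!
# The factorial conjecture for all polynomials of degree at most two

If `f` has degree at most two (any number of variables, any coefficients) and `L(f^m) = 0` for all `m ≥ 1`,
then `f = 0`.
-/

set_option autoImplicit false

namespace Pool.Agent.Results.MP_410f3c_al.QuadraticAll

theorem result :
    ∀ n : ℕ, ∀ L : MvPolynomial (Fin n) ℂ → ℂ,
      (∀ p : MvPolynomial (Fin n) ℂ,
        L p = ∑ s ∈ p.support, MvPolynomial.coeff s p * ∏ i : Fin n, ((s i).factorial : ℂ)) →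
      ∀ f : MvPolynomial (Fin n) ℂ, f.totalDegree ≤ 2 →
        (∀ m : ℕ, 1 ≤ m → L (f ^ m) = 0) → f = 0 := by
  intro n L hL f hf h
  refine Pool.Agent.FCQ.fc_quad f hf ?_
  intro m hm
  rw [Pool.Agent.FCQ.LF_univ, ← hL]
  exact h m hm

end Pool.Agent.Results.MP_410f3c_al.QuadraticAll
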