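import Pool.Agent.FCT.Y2

/-!
# MP_410f3c_al: the Factorial Conjecture for all polynomials in two variables
-/

set_option autoImplicit false

/-- For all `d` and `N` there is an `N'` such that, for every `n`, all variables `U_i`, `U_j` of
`ℂ[U_1..U_n]`, every nonzero polynomial `g` with complex coefficients, of degree at most `d`, in
the variables `U_i`, `U_j` only, and every nonzero polynomial `r` with real coefficients in the
other variables, some `m` with `N ≤ m ≤ N'` has `L ((r * g) ^ m) ≠ 0`. -/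
theorem Pool.Agent.Results.MP_410f3c_al.TwoVariables.result :
    ∀ d N : ℕ, ∃ N' : ℕ, ∀ n : ℕ, ∀ L : MvPolynomial (Fin n) ℂ → ℂ,
      (∀ p : MvPolynomial (Fin n) ℂ,
        L p = ∑ s ∈ p.support, MvPolynomial.coeff s p * ∏ i : Fin n, ((s i).factorial : ℂ)) →
      ∀ (i j : Fin n) (r : MvPolynomial (Fin n) ℝ) (g : MvPolynomial (Fin n) ℂ),
        r ≠ 0 → i ∉ r.vars → j ∉ r.vars → g ≠ 0 → g.vars ⊆ {i, j} → g.totalDegree ≤ d →
        ∃ m : ℕ, N ≤ m ∧ m ≤ N' ∧ L ((MvPolynomial.map Complex.ofRealHom r * g) ^ m) ≠ 0 := by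
  intro d N
  obtain ⟨N', h⟩ := Pool.Agent.FCT.fc_final2 d N
  refine ⟨N', fun n L hL i j r g hr hi hj hg hv hd => ?_⟩
  obtain ⟨m, h1, h2, h3⟩ := h n i j r g hr hi hj hg hv hd
  refine ⟨m, h1, h2, ?_⟩
  rw [hL]
  exact h3
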